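import Pool.Agent.H12.QC.Targets
import Pool.Agent.H23.QCF.Lib

/-!
# MP_63b6b1, row SPF: the finite places above a finite set of places
-/

set_option autoImplicit false

open NumberField IsDedekindDomain
open Pool.Agent.H23.QCF Pool.Agent.H12.QC
open Pool.Agent.H32.QC (Sol hil Iso FPl Pl ic hs sqAt HasseConic ProdFormula Prescribed)

namespace Pool.Agent.H19.QC

namespace SPF

theorem fib_finite {K E : Type} [Field K] [NumberField K] [Field E] [NumberField E]
    [Algebra K E] (v : FPl K) : {w : FPl E | w.under (𝓞 K) = v}.Finite := by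
  have h1 : (v.asIdeal.primesOver (𝓞 E)).Finite := IsDedekindDomain.primesOver_finite v.asIdeal (𝓞 E)
  refine (h1.preimage (f := fun w : FPl E => w.asIdeal)
    (fun w _ w' _ h => HeightOneSpectrum.ext h)).subset fun w hw => ?_
  refine ⟨w.isPrime, ⟨?_⟩⟩
  exact (congrArg HeightOneSpectrum.asIdeal (show w.under (𝓞 K) = v from hw)).symm

end SPF

open SPF in
theorem pf_SPF (h : T_SP2) : T_SPF := by
  classical
  intro K E _ _ _ _ _ t s hQ S hS
  have hSE : (SE E S).Finite := by
    have h1 : SE E S = ⋃ v ∈ S, {w : FPl E | w.under (𝓞 K) = v} := by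
      ext w
      simp only [Set.mem_iUnion, exists_prop]
      exact ⟨fun hw => ⟨_, hw, rfl⟩, fun ⟨v, hv, hw⟩ => by
        show w.under (𝓞 K) ∈ S
        rw [show w.under (𝓞 K) = v from hw]
        exact hv⟩
    rw [h1]
    exact hS.biUnion fun v _ => fib_finite v
  refine ⟨hSE, ?_⟩
  have h2 : (SE E S).ncard = ∑ v ∈ hS.toFinset,
      (hSE.toFinset.filter fun w => w.under (𝓞 K) = v).card := by
    rw [Set.ncard_eq_toFinset_card _ hSE]
    refine Finset.card_eq_sum_card_fiberwise fun w hw => ?_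
    have hw' : w ∈ SE E S := by
      have : w ∈ hSE.toFinset := hw
      exact hSE.mem_toFinset.1 this
    show w.under (𝓞 K) ∈ (hS.toFinset : Set (FPl K))
    rw [hS.coe_toFinset]
    exact hw'
  have h3 : {v : FPl K | v ∈ S ∧ ¬ sqAt (.inl v) t}.ncard =
      ∑ v ∈ hS.toFinset, if ¬ sqAt (.inl v) t then 1 else 0 := by
    rw [← Finset.card_filter, ← Set.ncard_coe_finset]
    congr 1
    ext v
    simp
  have h4 : 2 * S.ncard = ∑ _v ∈ hS.toFinset, 2 := by
    rw [Set.ncard_eq_toFinset_card _ hS, Finset.sum_const, smul_eq_mul, mul_comm]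
  rw [h2, h3, h4, ← Finset.sum_add_distrib]
  refine Finset.sum_le_sum fun v hv => ?_
  have hvS : v ∈ S := hS.mem_toFinset.1 hv
  have hmem : ∀ w : FPl E, w.under (𝓞 K) = v →
      w ∈ hSE.toFinset.filter fun w => w.under (𝓞 K) = v := by
    intro w hw
    rw [Finset.mem_filter, hSE.mem_toFinset]
    refine ⟨?_, hw⟩
    show w.under (𝓞 K) ∈ S
    rw [hw]
    exact hvS
  by_cases hsq : sqAt (.inl v) t
  · rw [if_neg (not_not.2 hsq), add_zero]
    obtain ⟨w, w', hne, hw, hw'⟩ := h K E t s hQ v hsq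
    exact Finset.one_lt_card.2 ⟨w, hmem w hw, w', hmem w' hw', hne⟩
  · rw [if_pos hsq]
    obtain ⟨w, hw⟩ := over_exists E v
    have h5 : 0 < (hSE.toFinset.filter fun w => w.under (𝓞 K) = v).card :=
      Finset.card_pos.2 ⟨w, hmem w hw⟩
    omega

end Pool.Agent.H19.QC
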