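import Pool.Agent.H12.QC.WB
import Pool.Agent.H12.QC.Targets
import Pool.Agent.H32.QC.TargetsL

/-!
# MP_63b6b1, row SWA: weak approximation modulo local squares
-/

set_option autoImplicit false

open NumberField IsDedekindDomain
open Pool.Agent.H23.QCF Pool.Agent.H12.QC
open Pool.Agent.H32.QC (Sol hil Iso FPl Pl ic hs sqAt HasseConic ProdFormula Prescribed)

namespace Pool.Agent.H19.QC

theorem pf_SWA (hO : Pool.Agent.H32.QC.T_OPV) : T_WA := by
  classical
  intro K _ _ A hA x
  rcases A.eq_empty_or_nonempty with rfl | hne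
  · exact ⟨1, fun p hp => absurd hp (Set.notMem_empty p)⟩
  have hx0 : ∀ v : FPl K, (ic v (x (Sum.inl v) : K))⁻¹ ≠ 0 := by
    intro v
    refine inv_ne_zero ?_
    rw [Ne, map_eq_zero_iff _ (ic v).injective]
    exact (x (Sum.inl v)).ne_zero
  choose e he hsq using fun v : FPl K => hO K v _ (hx0 v)
  have hS : (Sum.inl ⁻¹' A : Set (FPl K)).Finite := hA.preimage Sum.inl_injective.injOn
  obtain ⟨z, hz1, hz2⟩ := weakApprox hS.toFinset (fun v => (ic v (x (Sum.inl v) : K))⁻¹)
    (fun v => Metric.ball ((ic v (x (Sum.inl v) : K))⁻¹) (e v))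
    (fun v _ => Metric.ball_mem_nhds _ (he v))
    (fun τ => if 0 < τ (x (Sum.inr τ) : K) then 1 else -1) (1 / 2) (by norm_num)
  have hfin : ∀ v : FPl K, Sum.inl v ∈ A → ic v z ≠ 0 ∧
      IsSquare (ic v z / (ic v (x (Sum.inl v) : K))⁻¹) := by
    intro v hv
    have h1 := hz1 v (hS.mem_toFinset.2 hv)
    rw [Metric.mem_ball, dist_eq_norm] at h1
    exact hsq v _ h1
  have hz0 : z ≠ 0 := by
    rintro rfl
    obtain ⟨p, hp⟩ := hne
    rcases p with v | τ
    · exact (hfin v hp).1 (map_zero _)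
    · have h1 := hz2 τ
      rw [map_zero] at h1
      split_ifs at h1
      · norm_num at h1
      · norm_num at h1
  refine ⟨Units.mk0 z hz0, fun p hp => ?_⟩
  rcases p with v | τ
  · show IsSquare (ic v ((Units.mk0 z hz0 * x (Sum.inl v) : Kˣ) : K))
    have h1 := (hfin v hp).2
    rw [div_inv_eq_mul] at h1
    rw [Units.val_mul, map_mul]
    exact h1
  · show IsSquare (τ ((Units.mk0 z hz0 * x (Sum.inr τ) : Kˣ) : K))
    rw [Units.val_mul, map_mul]
    have h1 := abs_lt.1 (hz2 τ)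
    have hx : τ (x (Sum.inr τ) : K) ≠ 0 := by
      rw [Ne, map_eq_zero_iff _ τ.injective]
      exact (x (Sum.inr τ)).ne_zero
    have h2 : 0 ≤ τ ((Units.mk0 z hz0 : Kˣ) : K) * τ (x (Sum.inr τ) : K) := by
      show 0 ≤ τ z * _
      by_cases h : 0 < τ (x (Sum.inr τ) : K)
      · rw [if_pos h] at h1
        exact mul_nonneg (by linarith [h1.1]) h.le
      · rw [if_neg h] at h1
        exact mul_nonneg_of_nonpos_of_nonpos (by linarith [h1.2]) (not_lt.1 h)
    exact ⟨_, (Real.mul_self_sqrt h2).symm⟩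

end Pool.Agent.H19.QC
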